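import Mathlib
import Pool.Agent.Q172.FockA
import Pool.Agent.Q172.FockF

open MeasureTheory Set Metric Filter Topology
open scoped ENNReal
open Pool.Agent.Q172.Fock

namespace Pool.Agent.Results.MP_bbe01f_an.RadialCharacterisation

/-- `h ∈ L^p_α`: the function `h(z) e^{-α|z|²/2}` belongs to `L^p(ℂⁿ, dv)`. -/
def InL {n : ℕ} (α : ℝ) (p : ℝ≥0∞) (h : Cn n → ℂ) : Prop :=
  MemLp (fun z => h z * (Real.exp (-(α * ‖z‖ ^ 2 / 2)) : ℂ)) p volume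

variable {n : ℕ} {f : Cn n → ℂ}

theorem enorm_eq (g : Cn n → ℂ) (α P : ℝ) (hP : 0 < P) (k : ℕ) (z : Cn n) :
    ‖g z / (1 + ((‖z‖ ^ 2 : ℝ) : ℂ)) ^ k * (Real.exp (-(α * ‖z‖ ^ 2 / 2)) : ℂ)‖ₑ ^ P =
      ‖g z‖ₑ ^ P * ENNReal.ofReal (wt (k * P) (P * α / 2) z) := by
  rw [enorm_rpow _ _ hP, enorm_rpow _ _ hP, ← ENNReal.ofReal_mul (by positivity)]
  congr 1
  have h1 : (1 + ((‖z‖ ^ 2 : ℝ) : ℂ)) = ((1 + ‖z‖ ^ 2 : ℝ) : ℂ) := by push_cast; ring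
  have h0 : 0 < 1 + ‖z‖ ^ 2 := by positivity
  rw [h1, norm_mul, norm_div, norm_pow, Complex.norm_real, Complex.norm_real,
    Real.norm_of_nonneg h0.le, Real.norm_of_nonneg (Real.exp_pos _).le]
  unfold wt
  rw [Real.mul_rpow (by positivity) (by positivity), Real.div_rpow (by positivity) (by positivity),
    ← Real.exp_mul, ← Real.rpow_natCast, ← Real.rpow_mul h0.le, Real.rpow_neg h0.le, div_eq_mul_inv, mul_assoc]
  congr 3
  ring

theorem cont_quot (hf : Differentiable ℂ f) (α : ℝ) (k : ℕ) : Continuous (fun z : Cn n =>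
    Rad^[k] f z / (1 + ((‖z‖ ^ 2 : ℝ) : ℂ)) ^ k * (Real.exp (-(α * ‖z‖ ^ 2 / 2)) : ℂ)) := by
  have h1 := (Rad_iter_diff hf k).continuous
  apply Continuous.mul
  · apply h1.div (by fun_prop)
    intro z
    apply pow_ne_zero
    have h0 : 0 < 1 + ‖z‖ ^ 2 := by positivity
    have : (1 + ((‖z‖ ^ 2 : ℝ) : ℂ)) = ((1 + ‖z‖ ^ 2 : ℝ) : ℂ) := by push_cast; ring
    rw [this]
    exact_mod_cast h0.ne'
  · fun_prop

theorem inL_iff (hf : Differentiable ℂ f) (α : ℝ) (p : ℝ≥0∞) (hp0 : p ≠ 0) (hp : p ≠ ⊤) (k : ℕ) :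
    InL α p (fun z => Rad^[k] f z / (1 + ((‖z‖ ^ 2 : ℝ) : ℂ)) ^ k) ↔
      ∫⁻ z, ‖Rad^[k] f z‖ₑ ^ p.toReal * ENNReal.ofReal (wt (k * p.toReal) (p.toReal * α / 2) z) ≠ ⊤ := by
  have hP : 0 < p.toReal := ENNReal.toReal_pos hp0 hp
  unfold InL MemLp
  rw [eLpNorm_lt_top_iff_lintegral_rpow_enorm_lt_top hp0 hp]
  simp_rw [enorm_eq (Rad^[k] f) α p.toReal hP k]
  constructor
  · rintro ⟨_, h⟩; exact h.ne
  · intro h
    exact ⟨(cont_quot hf α k).aestronglyMeasurable, h.lt_top⟩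

theorem inL_top (hf : Differentiable ℂ f) (α : ℝ) (k : ℕ) :
    InL α ⊤ (fun z => Rad^[k] f z / (1 + ((‖z‖ ^ 2 : ℝ) : ℂ)) ^ k) ↔
      ∃ C : ℝ, ∀ z, ‖Rad^[k] f z‖ ≤ C * ((1 + ‖z‖ ^ 2) ^ k * Real.exp (α / 2 * ‖z‖ ^ 2)) := by
  have hnorm : ∀ z : Cn n, ‖Rad^[k] f z / (1 + ((‖z‖ ^ 2 : ℝ) : ℂ)) ^ k *
      (Real.exp (-(α * ‖z‖ ^ 2 / 2)) : ℂ)‖ = ‖Rad^[k] f z‖ / ((1 + ‖z‖ ^ 2) ^ k * Real.exp (α / 2 * ‖z‖ ^ 2)) := by
    intro z
    have h1 : (1 + ((‖z‖ ^ 2 : ℝ) : ℂ)) = ((1 + ‖z‖ ^ 2 : ℝ) : ℂ) := by push_cast; ring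
    have h0 : 0 < 1 + ‖z‖ ^ 2 := by positivity
    rw [h1, norm_mul, norm_div, norm_pow, Complex.norm_real, Complex.norm_real,
      Real.norm_of_nonneg h0.le, Real.norm_of_nonneg (Real.exp_pos _).le, Real.exp_neg]
    have : α * ‖z‖ ^ 2 / 2 = α / 2 * ‖z‖ ^ 2 := by ring
    rw [this]
    field_simp
  unfold InL
  constructor
  · intro h
    obtain ⟨C, hC⟩ : ∃ C : ℝ, ∀ᵐ z ∂(volume : Measure (Cn n)), ‖Rad^[k] f z / (1 + ((‖z‖ ^ 2 : ℝ) : ℂ)) ^ k *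
        (Real.exp (-(α * ‖z‖ ^ 2 / 2)) : ℂ)‖ ≤ C := by
      have hfin := h.2
      rw [eLpNorm_exponent_top] at hfin
      refine ⟨(eLpNormEssSup (fun z : Cn n => Rad^[k] f z / (1 + ((‖z‖ ^ 2 : ℝ) : ℂ)) ^ k *
          (Real.exp (-(α * ‖z‖ ^ 2 / 2)) : ℂ)) volume).toReal, ?_⟩
      · filter_upwards [ae_le_eLpNormEssSup (f := fun z : Cn n => Rad^[k] f z / (1 + ((‖z‖ ^ 2 : ℝ) : ℂ)) ^ k *
          (Real.exp (-(α * ‖z‖ ^ 2 / 2)) : ℂ)) (μ := volume)] with z hz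
        have h2 := ENNReal.toReal_mono hfin.ne hz
        rwa [toReal_enorm] at h2
    refine ⟨C, fun z => ?_⟩
    have hall : ∀ z : Cn n, ‖Rad^[k] f z / (1 + ((‖z‖ ^ 2 : ℝ) : ℂ)) ^ k *
        (Real.exp (-(α * ‖z‖ ^ 2 / 2)) : ℂ)‖ ≤ C := by
      have hcl : IsClosed {z : Cn n | ‖Rad^[k] f z / (1 + ((‖z‖ ^ 2 : ℝ) : ℂ)) ^ k *
        (Real.exp (-(α * ‖z‖ ^ 2 / 2)) : ℂ)‖ ≤ C} :=
        isClosed_le (cont_quot hf α k).norm continuous_const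
      have hd : Dense {z : Cn n | ‖Rad^[k] f z / (1 + ((‖z‖ ^ 2 : ℝ) : ℂ)) ^ k *
        (Real.exp (-(α * ‖z‖ ^ 2 / 2)) : ℂ)‖ ≤ C} := Measure.dense_of_ae hC
      intro z
      have := hd.closure_eq
      rw [hcl.closure_eq] at this
      exact (this ▸ mem_univ z : z ∈ {z : Cn n | _})
    have h1 := hall z
    rw [hnorm, div_le_iff₀ (by positivity)] at h1
    exact h1
  · rintro ⟨C, hC⟩
    apply memLp_top_of_bound (cont_quot hf α k).aestronglyMeasurable C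
    refine Eventually.of_forall fun z => ?_
    rw [hnorm, div_le_iff₀ (by positivity)]
    exact hC z

/-- The full equivalence: for every `n`, every `0 < p ≤ ∞`, every `α > 0`, every positive integer `N`
and every entire `f` on `ℂⁿ`, `f ∈ F^p_α` if and only if `R^N f(z) / (1 + |z|²)^N ∈ L^p_α`. -/
theorem result (n : ℕ) (p : ℝ≥0∞) (hp : 0 < p) (α : ℝ) (hα : 0 < α) (N : ℕ) (_hN : 0 < N)
    (f : Cn n → ℂ) (hf : Differentiable ℂ f) :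
    InL α p f ↔ InL α p (fun z => Rad^[N] f z / (1 + ((‖z‖ ^ 2 : ℝ) : ℂ)) ^ N) := by
  have h0 : InL α p f ↔ InL α p (fun z => Rad^[0] f z / (1 + ((‖z‖ ^ 2 : ℝ) : ℂ)) ^ 0) := by
    simp
  rw [h0]
  clear h0 _hN
  induction N with
  | zero => rfl
  | succ N ih =>
    refine ih.trans ?_
    have hd := Rad_iter_diff hf N
    by_cases hpt : p = ⊤
    · subst hpt
      rw [inL_top hf, inL_top hf]
      simp only [Function.iterate_succ_apply']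
      exact ⟨fun h => fwd_inf hd (α / 2) (by positivity) N h, fun h => rev_inf hd (α / 2) (by positivity) N h⟩
    · have hP : 0 < p.toReal := ENNReal.toReal_pos hp.ne' hpt
      rw [inL_iff hf α p hp.ne' hpt, inL_iff hf α p hp.ne' hpt]
      simp only [Function.iterate_succ_apply']
      have e : (((N + 1 : ℕ) : ℝ) * p.toReal) = N * p.toReal + p.toReal := by push_cast; ring
      rw [e]
      exact ⟨fun h => fwd_step hd (N * p.toReal) p.toReal (p.toReal * α / 2) (by positivity) hP (by positivity) h,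
        fun h => rev_step hd (N * p.toReal) p.toReal (p.toReal * α / 2) (by positivity) hP (by positivity) h⟩

end Pool.Agent.Results.MP_bbe01f_an.RadialCharacterisation
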